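import Pool.Agent.CRW.All
import Pool.Agent.CRW.P_MWS
import Pool.Agent.CRW.P_FNC
import Pool.Agent.CYL.P_SPL
import Pool.Agent.CYL.P_PFT
import Pool.Agent.CYL.P_MEA
import Pool.Agent.CYL.P_PLY
import Pool.Agent.CYL.P_GRC

set_option autoImplicit false

/-! MP_ee701d_an, all dimensions `n = m + 2`, all `f ∈ L¹ ∩ L²`, points `(t, y)`, `t ∈ ℝ²`, `y ∈ ℝᵐ`: ball partial sums
`S_{R(t)} f(t, y)` for a choice `R(t)` of the radius (arbitrary if `n = 2`) which is arbitrary for `R(t)|t| ≤ N` and for `R(t)|t| > N`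
takes on arcs of length `2π|t|/N` only values which differ by at most `A/|t|` (`A = 0` if `n > 2`) or by at least `R(t)/N`; `n = 2`: series of
functions with angular frequencies in windows; growth of `S_R f` for all `R` and all `n`. -/

namespace Pool.Agent.Results.MP_ee701d_an.ArcwiseChoice

open MeasureTheory FourierTransform Filter Topology Pool.Agent.MBS
open scoped ENNReal NNReal

/-- `L s = log (3 + log s)` -/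
noncomputable def L (s : ℝ) : ℝ := Real.log (3 + Real.log s)

/-- Borel functions in `L¹` and `L²` -/
def Fn {n : ℕ} (f : E n → ℂ) : Prop := Measurable f ∧ Integrable f ∧ MemLp f 2

/-- the point of the plane with polar coordinates `r`, `φ` -/
noncomputable def pt (r φ : ℝ) : E 2 := !₂[r * Real.cos φ, r * Real.sin φ]

/-- the point `(t, y)` of `ℝ^(m+2)`, `t ∈ ℝ²`, `y ∈ ℝᵐ` -/
noncomputable def jn {m : ℕ} (t : E 2) (y : E m) : E (m + 2) :=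
  WithLp.toLp 2 (Fin.cons (t 0) (Fin.cons (t 1) y))

/-- the hypothesis on `R` and `D` in part (1) -/
def Arcs (N : ℕ) (A : ℝ) (R : E 2 → ℝ) (D : Set (E 2)) : Prop :=
  ∀ r φ : ℝ, 0 < r → pt r φ ∈ D → R (pt r φ) * r ≤ N ∨
    ∃ a b : ℝ, a ≤ φ ∧ φ < b ∧ 2 * Real.pi / N ≤ b - a ∧
      ∀ ψ : ℝ, a ≤ ψ → ψ < b → pt r ψ ∈ D → |R (pt r ψ) - R (pt r φ)| ≤ A / r ∨
        R (pt r φ) / N ≤ |R (pt r ψ) - R (pt r φ)|

/-- the angular frequencies of `g` are in the window `w, w+1, ..., w+K-1` -/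
def Window (K : ℕ) (w : ℤ) (g : E 2 → ℂ) : Prop := ∃ c : ℕ → ℝ → ℂ, ∀ r θ : ℝ, 0 < r →
  g (pt r θ) = ∑ k ∈ Finset.range K, c k r * Complex.exp (((w : ℂ) + k) * θ * Complex.I)

/-- the sum in part (2) -/
noncomputable def WSum (K : ℕ → ℕ) (g : ℕ → E 2 → ℂ) : ℝ≥0∞ :=
  ∑' j : ℕ, ENNReal.ofReal (L (K j) ^ 6) * (∫⁻ x, ‖g j x‖ₑ ^ 2) ^ (1 / 2 : ℝ)

/-- part (1): choices of the radius on arcs -/
def Choice : Prop := ∃ C : ℝ≥0, ∀ (m N : ℕ) (A : ℝ) (f : E (m + 2) → ℂ) (R : E 2 → ℝ)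
  (D : Set (E 2)), 1 ≤ N → 0 ≤ A → (m = 0 ∨ A = 0) → Fn f → Measurable R → (∀ t, 0 < R t) →
  MeasurableSet D → Arcs N A R D →
  ∫⁻ t in D, ∫⁻ y : E m, ‖S f (R t) (jn t y)‖ₑ ^ 2 ≤
    C * ENNReal.ofReal (L N ^ 12 + Real.log (2 + A) ^ 2) * ∫⁻ x, ‖f x‖ₑ ^ 2

/-- part (2): series of functions with angular frequencies in windows -/
def Series : Prop := ∃ C : ℝ≥0, ∀ (f : E 2 → ℂ) (g : ℕ → E 2 → ℂ) (K : ℕ → ℕ) (w : ℕ → ℤ),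
  Fn f → (∀ j, Fn (g j) ∧ 1 ≤ K j ∧ Window (K j) (w j) (g j)) →
  Tendsto (fun J => ∫⁻ x, ‖f x - ∑ j ∈ Finset.range J, g j x‖ₑ ^ 2) atTop (𝓝 0) →
  (∫⁻ x, Sstar f x ^ 2) ^ (1 / 2 : ℝ) ≤ C * WSum K g ∧
  (WSum K g ≠ ⊤ → ∀ᵐ x, Tendsto (fun R : ℝ => S f R x) atTop (𝓝 (f x)))

/-- part (3): growth -/
def Growth : Prop := ∃ C : ℝ≥0, ∀ (m : ℕ) (f : E (m + 2) → ℂ), Fn f →
  ∫⁻ t : E 2, (⨆ (R : ℝ) (_ : 0 < R), (∫⁻ y : E m, ‖S f R (jn t y)‖ₑ ^ 2) /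
    ENNReal.ofReal (L (3 + R * ‖t‖) ^ 12)) ≤ C * ∫⁻ x, ‖f x‖ₑ ^ 2

theorem pt_eq (r φ : ℝ) : pt r φ = r • Pool.Agent.CRL.ev φ := by
  unfold pt Pool.Agent.CRL.ev
  ext i
  fin_cases i <;> simp

theorem win_of {K : ℕ} {w : ℤ} {g : E 2 → ℂ} (h : Window K w g) : Pool.Agent.CRW.Win K w g := by
  obtain ⟨c, hc⟩ := h
  refine ⟨c, fun r θ hr => ?_⟩
  rw [← pt_eq, hc r θ hr]
  refine Finset.sum_congr rfl fun k _ => ?_
  unfold Pool.Agent.CRN.ci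
  congr 2
  push_cast
  ring

theorem result : Choice ∧ Series ∧ Growth := by
  have hPLY := Pool.Agent.CYL.p_PLY Pool.Agent.CYL.p_SPL Pool.Agent.CYL.p_MEA
  have hPFT := Pool.Agent.CYL.p_PFT Pool.Agent.CYL.p_SPL
  have hGRC := Pool.Agent.CYL.p_GRC Pool.Agent.CYL.p_SPL hPFT Pool.Agent.CYL.p_MEA hPLY
  refine ⟨?_, ?_, ?_⟩
  · obtain ⟨C, hC⟩ := Pool.Agent.CRW.p_FNJ (Pool.Agent.CRW.p_FNC Pool.Agent.CRW.q_FIN
      Pool.Agent.CYL.p_SPL hPFT Pool.Agent.CYL.p_MEA hPLY) Pool.Agent.CYL.p_SPL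
      Pool.Agent.CRW.q_DSP Pool.Agent.CRR.q_HANK Pool.Agent.CRR.q_CARLS Pool.Agent.CRW.q_GS1
    refine ⟨C, fun m N A f R D hN hA hmA h1 hR hR0 hD h => ?_⟩
    refine hC m N A f R D hN hA hmA ⟨h1.1, h1.2.1, h1.2.2⟩ hR hR0 hD fun r φ hr hφ => ?_
    unfold Arcs at h
    simp only [pt_eq] at h
    exact h r φ hr hφ
  · obtain ⟨C, hC⟩ := Pool.Agent.CRW.p_MWS Pool.Agent.CRW.q_MWC Pool.Agent.CRN.q_SERN
      Pool.Agent.CRW.q_DSP Pool.Agent.CRR.q_HANK Pool.Agent.CRR.q_CARLS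
    refine ⟨C, fun f g K w h1 h4 h6 => ?_⟩
    exact hC f g K w ⟨h1.1, h1.2.1, h1.2.2⟩ (fun j => ⟨(h4 j).1.1, (h4 j).1.2.1, (h4 j).1.2.2⟩)
      (fun j => (h4 j).2.1) (fun j => win_of (h4 j).2.2) h6
  · obtain ⟨C, hC⟩ := Pool.Agent.CRW.p_GNJ hGRC (Pool.Agent.CRW.q_GRW Pool.Agent.CRW.q_GS1)
    exact ⟨C, fun m f h1 => hC m f ⟨h1.1, h1.2.1, h1.2.2⟩⟩

end Pool.Agent.Results.MP_ee701d_an.ArcwiseChoice
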