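import Pool.Agent.GRO.All
import Pool.Agent.SLog.All
import Pool.Agent.CFS.All2
import Pool.Agent.CFS.All3
import Pool.Agent.BIR.All
import Pool.Agent.BIR.All3
import Pool.Agent.BIR.All4

set_option autoImplicit false

/-! MP_ee701d_an: in the plane, with `L(t) = log(3 + log(3 + t))` and `d(ξ)` the distance of `ξ` from the union of `N` lines
through the origin: for `0 ≤ a ≤ 12` and every unit disc `B`,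
`∫_B sup_R |S_R|² / L(R)^a ≤ C N ∫ |g|² L(d)^(12-a)`; for `0 ≤ a ≤ 11`, `S_R - F = o(L(R)^(a/2))` a.e. if
`∫ |g|² L(d)^(11-a) < ∞`. and the sum of `L(2^j)^(-a)` over the `j` with `|S_R - F| > ε` for some
`R ∈ [2^j, 2^(j+1)]` is finite a.e. For `a = 11` the second part holds for every `g ∈ L²`; for every `g ∈ L²` `S_R → F` a.e. along the
union of some intervals `[u_k, v_k]`, `u_k, v_k/u_k → ∞`. Third part: the circular partial sums of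
double Fourier series, `∫_{[0,1)²} sup_R |T_R f|² / L(R)^a ≤ C ∑ |f^(n)|² L(|n|)^(12-a)`, `0 ≤ a ≤ 12`, and
`T_R f(x) - f(x) = o(L(R)^(a/2))` for almost every `x` and the same sparseness if the right side is finite; `a = 12`: every `f ∈ L²(T²)`. Fourth part, all
dimensions: `∫ sup_R |S_R f(x)|² / L(R|x|)^12 dx ≤ C(n) ∫ |f|²` for all `f ∈ L²(ℝⁿ)` which are functions of the two distances from `W`
and `Wᗮ`, `W` a subspace, or axially symmetric. -/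

namespace Pool.Agent.Results.MP_ee701d_an.LogLogLines

open MeasureTheory FourierTransform Filter Topology Pool.Agent.MBS
open scoped ENNReal NNReal

/-- distance of `ξ` from the union of the lines `ℝ e`, `e ∈ D` (unit vectors) -/
noncomputable def dist (D : Finset (E 2)) (h : D.Nonempty) (ξ : E 2) : ℝ :=
  D.inf' h (fun e => ‖ξ - (inner ℝ e ξ : ℝ) • e‖)

/-- `L(t) = log(3 + log(3 + t))` -/
noncomputable def L (t : ℝ) : ℝ := Real.log (3 + Real.log (3 + t))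

/-- the weight `L(t)^a` -/
noncomputable def w (a t : ℝ) : ℝ≥0∞ := ENNReal.ofReal (L t ^ a)

/-- the ball partial integral `∫_{|ξ| ≤ R} g(ξ) e^{2πi x·ξ} dξ`; it is `S_R f(x)` if `g = f^` -/
noncomputable def SR {n : ℕ} (g : E n → ℂ) (R : ℝ) (x : E n) : ℂ :=
  ∫ ξ in Metric.closedBall (0 : E n) R, g ξ * ex x ξ

/-- `F` is the `L²` limit of `S_R` as `R → ∞` -/
def Lim (g F : E 2 → ℂ) : Prop :=
  MemLp F 2 ∧ Tendsto (fun R : ℝ => ∫⁻ x, ‖SR g R x - F x‖ₑ ^ 2) atTop (𝓝 0)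

/-- the lattice point `n` as a vector of `ℝ²` -/
noncomputable def lat (n : Fin 2 → ℤ) : E 2 := WithLp.toLp 2 (fun i => (n i : ℝ))

/-- the unit square `[0,1)²` -/
def Q : Set (E 2) := {x | ∀ i, x i ∈ Set.Ico (0 : ℝ) 1}

/-- the Fourier coefficient `f^(n) = ∫_Q f(x) e^{-2πi n·x} dx` -/
noncomputable def co (f : E 2 → ℂ) (n : Fin 2 → ℤ) : ℂ := ∫ x in Q, f x * ex x (-lat n)

/-- the circular partial sum `∑_{|n| ≤ R} f^(n) e^{2πi n·x}` -/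
noncomputable def CR (f : E 2 → ℂ) (R : ℝ) (x : E 2) : ℂ :=
  ∑ᶠ (n : Fin 2 → ℤ) (_ : ‖lat n‖ ≤ R), co f n * ex x (lat n)

/-- `g(ξ)` only depends on the distances of `ξ` from a subspace `W ≠ 0, ℝⁿ` and from its orthogonal complement -/
def TwoRadii {n : ℕ} (g : E n → ℂ) : Prop := ∃ W : Submodule ℝ (E n), W ≠ ⊥ ∧ W ≠ ⊤ ∧
  ∀ ξ η : E n, Metric.infDist ξ (W : Set (E n)) = Metric.infDist η (W : Set (E n)) →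
    Metric.infDist ξ (Wᗮ : Set (E n)) = Metric.infDist η (Wᗮ : Set (E n)) → g ξ = g η

/-- `g(ξ)` only depends on `ξ·v` and `|ξ|` for some unit vector `v` -/
def Axial {n : ℕ} (g : E n → ℂ) : Prop := ∃ v : E n, ‖v‖ = 1 ∧
  ∀ ξ η : E n, (inner ℝ v ξ : ℝ) = inner ℝ v η → ‖ξ‖ = ‖η‖ → g ξ = g η

/-- part (1) -/
def P1 : Prop := ∃ C : ℝ≥0, ∀ (a : ℝ) (D : Finset (E 2)) (h : D.Nonempty) (g : E 2 → ℂ)
  (x0 : E 2), 0 ≤ a → a ≤ 12 → (∀ e ∈ D, ‖e‖ = 1) → Measurable g →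
  ∫⁻ x in Metric.closedBall x0 1,
      (⨆ (R : ℝ) (_ : 0 < R), ‖SR g R x‖ₑ / ENNReal.ofReal (L R ^ (a / 2))) ^ 2 ≤
    C * D.card * ∫⁻ ξ, ‖g ξ‖ₑ ^ 2 * w (12 - a) (dist D h ξ)

/-- for a.e. `x` and all `ε > 0` the sum of `L(2^j)^(-a)` over the `j` such that `|T R x - F x| > ε` for some
`R ∈ [2^j, 2^(j+1)]` is finite -/
def Sparse (a : ℝ) (T : ℝ → E 2 → ℂ) (F : E 2 → ℂ) : Prop := ∀ᵐ x, ∀ ε : ℝ, 0 < ε →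
  ∑' j : {j : ℕ // ∃ R : ℝ, 2 ^ j ≤ R ∧ R ≤ 2 ^ (j + 1) ∧ ε < ‖T R x - F x‖},
    (w a (2 ^ (j : ℕ)))⁻¹ ≠ ⊤

/-- part (2) -/
def P2 : Prop :=
  (∀ (a : ℝ) (D : Finset (E 2)) (h : D.Nonempty) (g : E 2 → ℂ), 0 ≤ a → a ≤ 11 →
    (∀ e ∈ D, ‖e‖ = 1) → Measurable g → ∫⁻ ξ, ‖g ξ‖ₑ ^ 2 * w (11 - a) (dist D h ξ) ≠ ⊤ →
    ∃ F : E 2 → ℂ, Lim g F ∧
      (∀ᵐ x, Tendsto (fun R : ℝ => ‖SR g R x - F x‖ / L R ^ (a / 2)) atTop (𝓝 0)) ∧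
      Sparse a (SR g) F) ∧
  ∀ g : E 2 → ℂ, Measurable g → ∫⁻ ξ, ‖g ξ‖ₑ ^ 2 ≠ ⊤ →
    ∃ (u v : ℕ → ℝ) (F : E 2 → ℂ), (∀ k, 0 < u k ∧ u k ≤ v k) ∧ Tendsto u atTop atTop ∧
      Tendsto (fun k => v k / u k) atTop atTop ∧ Lim g F ∧
      ∀ᵐ x, Tendsto (fun R : ℝ => SR g R x) (atTop ⊓ 𝓟 (⋃ k, Set.Icc (u k) (v k))) (𝓝 (F x))

/-- part (3) -/
def P3 : Prop := ∃ C : ℝ≥0, ∀ (a : ℝ) (f : E 2 → ℂ), 0 ≤ a → a ≤ 12 → Measurable f →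
  (∀ (x : E 2) (k : Fin 2 → ℤ), f (x + lat k) = f x) → ∫⁻ x in Q, ‖f x‖ₑ ^ 2 ≠ ⊤ →
  ∫⁻ x in Q, (⨆ (R : ℝ) (_ : 0 < R), ‖CR f R x‖ₑ ^ 2 / w a R) ≤
    C * ∑' n, ‖co f n‖ₑ ^ 2 * w (12 - a) ‖lat n‖ ∧
  (∑' n, ‖co f n‖ₑ ^ 2 * w (12 - a) ‖lat n‖ ≠ ⊤ →
    (∀ᵐ x : E 2, Tendsto (fun R : ℝ => ‖CR f R x - f x‖ / L R ^ (a / 2)) atTop (𝓝 0)) ∧
    Sparse a (CR f) f)

/-- part (4) -/
def P4 : Prop := ∀ n : ℕ, 2 ≤ n → ∃ C : ℝ≥0, ∀ g : E n → ℂ, Measurable g →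
  ∫⁻ ξ, ‖g ξ‖ₑ ^ 2 ≠ ⊤ → (TwoRadii g ∨ Axial g) →
  ∫⁻ x, (⨆ (R : ℝ) (_ : 0 < R), ‖SR g R x‖ₑ / ENNReal.ofReal (L (R * ‖x‖) ^ 6)) ^ 2 ≤
    C * ∫⁻ ξ, ‖g ξ‖ₑ ^ 2

theorem result : P1 ∧ P2 ∧ P3 ∧ P4 := by
  refine ⟨?_, ⟨fun a D h g h1 h2 h3 h4 h5 => ?_, fun g hg hs => ?_⟩, ?_, ?_⟩
  · exact Pool.Agent.GRO.q_GSS
  · obtain ⟨F, h6, h7, h8⟩ := Pool.Agent.GRO.q_GAE a D h g h1 h2 h3 h4 h5
    exact ⟨F, ⟨h6, h7⟩, h8, Pool.Agent.BIR.q_SB3 a D h g F h1 h2 h3 h4 h5 h6 h7⟩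
  · obtain ⟨u, v, F, h1, h2, h3, h4, h5, h6⟩ := Pool.Agent.BIR.q_DE3 g hg hs
    exact ⟨u, v, F, h1, h2, h3, ⟨h4, h5⟩, h6⟩
  · obtain ⟨C, hC⟩ := Pool.Agent.CFS.fGTF Pool.Agent.SEnd.fDSs
    refine ⟨C, fun a f ha ha' hm hp hf => ⟨hC a f ha ha' ⟨hm, hp, hf⟩, fun hs => ?_⟩⟩
    exact ⟨Pool.Agent.CFS.fGTA Pool.Agent.SEnd.fDSs a f ha ha' ⟨hm, hp, hf⟩ hs,
      Pool.Agent.CFS.fPBS Pool.Agent.SEnd.fDSs a f ha ha' ⟨hm, hp, hf⟩ hs⟩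
  · intro n hn
    obtain ⟨C, hC⟩ := Pool.Agent.BIR.q_BIF Pool.Agent.BIR.q_Asy n
    obtain ⟨D, hD⟩ := Pool.Agent.BIR.q_BF1 Pool.Agent.BIR.q_Asy n hn
    refine ⟨C + D, fun g hg hs h => ?_⟩
    have e1 : (C : ℝ≥0∞) ≤ ((C + D : ℝ≥0) : ℝ≥0∞) := by
      exact_mod_cast (le_self_add : C ≤ C + D)
    have e2 : (D : ℝ≥0∞) ≤ ((C + D : ℝ≥0) : ℝ≥0∞) := by
      exact_mod_cast (le_add_self : D ≤ C + D)
    rcases h with ⟨W, h1, h2, h3⟩ | ⟨v, h1, h2⟩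
    · exact (hC W g h1 h2 hg hs h3).trans (mul_le_mul_left e1 _)
    · exact (hD v g h1 hg hs h2).trans (mul_le_mul_left e2 _)

end Pool.Agent.Results.MP_ee701d_an.LogLogLines
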