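import Pool.Agent.CYL.All2
import Pool.Agent.VRR.All

set_option autoImplicit false

/-! MP_ee701d_an, all dimensions `n ≥ 2`, all `f ∈ L¹ ∩ L²`: ball partial sums with a choice `R(x)` of the radius which takes,
up to `A/|x - p|`, at most `M` values at every distance from an affine subspace `p + W ≠ ℝⁿ` (spheres about `p` for `W = 0`); the
`q`-variation, `q > 2`, of the ball partial sums in `L²` of the spheres; convergence in `L²` of almost every sphere. -/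

namespace Pool.Agent.Results.MP_ee701d_an.RadialChoice

open MeasureTheory FourierTransform Filter Topology Pool.Agent.MBS
open scoped ENNReal NNReal

/-- the surface measure of the unit sphere of `ℝⁿ` -/
noncomputable def sigma (n : ℕ) : Measure (Metric.sphere (0 : E n) 1) :=
  (volume : Measure (E n)).toSphere

/-- the `q`-variation of the curve `R ↦ S_R f(r ·)` in `L²` of the unit sphere: the supremum over all finite increasing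
sequences `N 0 ≤ N 1 ≤ ... ≤ N L` of radii of `(∑_j ‖S_{N (j+1)} f(r ·) - S_{N j} f(r ·)‖^q)^(1/q)` -/
noncomputable def Var {n : ℕ} (q : ℝ) (f : E n → ℂ) (r : ℝ) : ℝ≥0∞ :=
  ⨆ (L : ℕ) (N : ℕ → ℝ) (_ : Monotone N), (∑ j ∈ Finset.range L,
    (∫⁻ w, ‖S f (N (j + 1)) (r • (w : E n)) - S f (N j) (r • (w : E n))‖ₑ ^ 2 ∂(sigma n)) ^
      (q / 2)) ^ (1 / q)

theorem result :
    (∀ n : ℕ, 2 ≤ n → ∃ C : ℝ≥0, ∀ (W : Submodule ℝ (E n)) (p : E n) (M : ℕ) (A : ℝ) (f : E n → ℂ)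
      (R : E n → ℝ) (ρ : ℕ → ℝ → ℝ), W ≠ ⊤ → 1 ≤ M → 0 ≤ A →
      Measurable f → Integrable f → MemLp f 2 → Measurable R → (∀ x, 0 < R x) →
      (∀ j, Measurable (ρ j)) → (∀ j t, 0 < ρ j t) →
      (∀ x, x ≠ p → ∃ j < M,
        |R x - ρ j (Metric.infDist (x - p) (W : Set (E n)))| ≤ A / ‖x - p‖) →
      ∫⁻ x, ‖S f (R x) x‖ₑ ^ 2 ≤
        C * ENNReal.ofReal (Real.log (2 + M) ^ 16 + Real.log (2 + A) ^ 2) * ∫⁻ x, ‖f x‖ₑ ^ 2) ∧
    (∀ n : ℕ, 2 ≤ n → ∃ C : ℝ≥0, ∀ f : E n → ℂ, Measurable f → Integrable f → MemLp f 2 →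
      (∀ q : ℝ, 2 < q → q ≤ 4 →
        ∫⁻ r in Set.Ioi (0 : ℝ), Var q f r ^ 2 * ENNReal.ofReal (r ^ (n - 1)) ≤
          C * ENNReal.ofReal ((q / (q - 2)) ^ 14) * ∫⁻ x, ‖f x‖ₑ ^ 2) ∧
      ∀ᵐ r ∂(volume.restrict (Set.Ioi (0 : ℝ))),
        Tendsto (fun R : ℝ => ∫⁻ w, ‖S f R (r • (w : E n)) - f (r • (w : E n))‖ₑ ^ 2 ∂(sigma n))
          atTop (𝓝 0)) := by
  refine ⟨fun n hn => ?_, fun n hn => ?_⟩
  · obtain ⟨C, hC⟩ := Pool.Agent.CYL.q_CVF Pool.Agent.VRR.q_RAV Pool.Agent.VRR.q_C4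
      Pool.Agent.VRR.p_REX n hn
    exact ⟨C, fun W p M A f R ρ hW hM hA h1 h2 h3 hR hR0 hρ hρ0 h =>
      hC W p M A f R ρ hW hM hA ⟨h1, h2, h3⟩ hR hR0 hρ hρ0 h⟩
  · obtain ⟨C, hC⟩ := Pool.Agent.VRR.q_RAV n hn
    refine ⟨C, fun f h1 h2 h3 => ⟨fun q hq hq4 => hC q hq hq4 f ⟨h1, h2, h3⟩, ?_⟩⟩
    exact Pool.Agent.CRR.q_RAE Pool.Agent.CRR.q_CARLS n f hn ⟨h1, h2, h3⟩

end Pool.Agent.Results.MP_ee701d_an.RadialChoice
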