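import Pool.Agent.VRC.All
import Pool.Agent.VRR.All3

set_option autoImplicit false

/-! MP_ee701d_an, all `n ≥ 2`, no loss. (1) Random signs: if `f = ∑ f_i` in `L²(ℝⁿ)`, `∑ ‖f_i‖² < ∞`, where each `f_i` is of
pure angular degree about some centre or has its frequencies in a parabolic region, then the ball partial sums of
`∑ ε_i f_i` (independent random signs) satisfy the maximal inequality on average and converge a.e., almost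
surely. (2) `f^(ξ) = ∑ a_i(|ξ|) Y_i(ξ/|ξ|)`, `Y_i` orthonormal spherical harmonics of arbitrary degrees: the maximal
inequality and a.e. convergence if `‖∑ b_i Y_i‖_p ≤ B ‖b‖_2`, `p > 2` (a `Λ(p)` system), or only
`∫_{|u| > t} |u|² ≤ B (log (2 + t))⁻¹⁸` for the normalised sums `u = ∑ b_i Y_i`; for `K` arbitrary spherical harmonics the
norm is at most `C (log (2 + K))⁸`. -/

namespace Pool.Agent.Results.MP_ee701d_an.RandomSigns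

open MeasureTheory FourierTransform Filter Topology Pool.Agent.MBS
open scoped ENNReal NNReal ComplexConjugate

/-- `ε 0, ε 1, ...` are independent random signs on the probability space `(Ω, P)` -/
structure Signs {Ω : Type} [MeasurableSpace Ω] (P : Measure Ω) (ε : ℕ → Ω → ℝ) : Prop where
  prob : IsProbabilityMeasure P
  meas : ∀ i, Measurable (ε i)
  ind : ProbabilityTheory.iIndepFun ε P
  pos : ∀ i, P {ω | ε i ω = 1} = 1 / 2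
  neg : ∀ i, P {ω | ε i ω = -1} = 1 / 2

/-- `p` is harmonic on `ℝⁿ` and homogeneous of degree `l`; its restriction to the unit sphere is a spherical harmonic
of degree `l` -/
structure Solid {n : ℕ} (l : ℕ) (p : E n → ℂ) : Prop where
  diff : ContDiff ℝ 2 p
  harm : ∀ x, Laplacian.laplacian p x = 0
  homog : ∀ (t : ℝ) (x : E n), 0 ≤ t → p (t • x) = (t : ℂ) ^ l * p x

/-- `g` is of pure angular degree `l`: for every `ρ > 0` the function `θ ↦ g(ρ θ)` on the unit sphere is a spherical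
harmonic of degree `l` -/
def PureDeg {n : ℕ} (l : ℕ) (g : E n → ℂ) : Prop :=
  ∀ ρ : ℝ, 0 < ρ → ∃ p : E n → ℂ, Solid l p ∧ ∀ θ : E n, ‖θ‖ = 1 → g (ρ • θ) = p θ

/-- `g` is the Fourier transform of a function of pure angular degree about some centre `y` -/
def Centred {n : ℕ} (g : E n → ℂ) : Prop :=
  ∃ (y : E n) (l : ℕ), PureDeg l (fun ξ => g ξ * ex y ξ)

/-- `g` vanishes outside of a parabolic region `{|ξ| - ξ·w ≤ k}`, `w` a unit vector -/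
def Parabolic {n : ℕ} (k : ℝ) (g : E n → ℂ) : Prop :=
  ∃ w : E n, ‖w‖ = 1 ∧ ∀ ξ, g ξ ≠ 0 → ‖ξ‖ - inner ℝ w ξ ≤ k

/-- the ball partial integral `∫_{|ξ| ≤ R} g(ξ) e^{2πi x·ξ} dξ`; it is `S_R f(x)` if `g = f^` -/
noncomputable def SR {n : ℕ} (g : E n → ℂ) (R : ℝ) (x : E n) : ℂ :=
  ∫ ξ in Metric.closedBall (0 : E n) R, g ξ * ex x ξ

/-- for almost every `ω` the series `∑ ε_i(ω) g_i` converges to `G ω` in `L²` -/
def Conv {n : ℕ} {Ω : Type} [MeasurableSpace Ω] (P : Measure Ω) (ε : ℕ → Ω → ℝ)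
    (g : ℕ → E n → ℂ) (G : Ω → E n → ℂ) : Prop :=
  (∀ ω, Measurable (G ω)) ∧ ∀ᵐ ω ∂P, Tendsto (fun m : ℕ =>
    ∫⁻ ξ, ‖G ω ξ - ∑ i ∈ Finset.range m, (ε i ω : ℂ) * g i ξ‖ₑ ^ 2) atTop (𝓝 0)

/-- `S_R f`, `f^ = g`, converges in `L²` and almost everywhere to the same function (which is `f`) as `R → ∞` -/
def AEConv {n : ℕ} (g : E n → ℂ) : Prop :=
  ∃ F : E n → ℂ, MemLp F 2 ∧
    Tendsto (fun R : ℝ => ∫⁻ x, ‖SR g R x - F x‖ₑ ^ 2) atTop (𝓝 0) ∧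
    ∀ᵐ x, Tendsto (fun R : ℝ => SR g R x) atTop (𝓝 (F x))

/-- the surface measure of the unit sphere of `ℝⁿ` -/
noncomputable def sigma (n : ℕ) : Measure (Metric.sphere (0 : E n) 1) :=
  (volume : Measure (E n)).toSphere

/-- the restrictions of `Y 0, ..., Y (K-1)` to the unit sphere are orthonormal spherical harmonics of the degrees `l i` -/
structure Harm {n : ℕ} (K : ℕ) (l : ℕ → ℕ) (Y : ℕ → E n → ℂ) : Prop where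
  sol : ∀ i < K, Solid (l i) (Y i)
  ort : ∀ i < K, ∀ j < K,
    ∫ θ, Y i (θ : E n) * conj (Y j (θ : E n)) ∂(sigma n) = if i = j then 1 else 0

/-- `‖∑_{i<K} b_i Y_i‖_p ≤ B (∑_{i<K} |b_i|²)^(1/2)` on the unit sphere for all coefficients -/
def LamP {n : ℕ} (K : ℕ) (p : ℝ) (Y : ℕ → E n → ℂ) (B : ℝ≥0) : Prop := ∀ b : ℕ → ℂ,
  (∫⁻ θ, ‖∑ i ∈ Finset.range K, b i * Y i (θ : E n)‖ₑ ^ p ∂(sigma n)) ^ (1 / p) ≤
    B * (∑ i ∈ Finset.range K, ‖b i‖ₑ ^ 2) ^ (1 / 2 : ℝ)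

/-- `∫_{|u| > t} |u|² dσ ≤ B (log (2 + t))⁻¹⁸` for all `t > 0` and all `u = ∑_{i<K} b_i Y_i`, `∑_{i<K} |b_i|² ≤ 1` -/
def LogGain {n : ℕ} (K : ℕ) (Y : ℕ → E n → ℂ) (B : ℝ≥0) : Prop := ∀ (b : ℕ → ℂ) (t : ℝ), 0 < t →
  ∑ i ∈ Finset.range K, ‖b i‖ ^ 2 ≤ 1 →
    ∫⁻ θ in {θ : Metric.sphere (0 : E n) 1 | t < ‖∑ i ∈ Finset.range K, b i * Y i (θ : E n)‖},
      ‖∑ i ∈ Finset.range K, b i * Y i (θ : E n)‖ₑ ^ 2 ∂(sigma n) ≤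
    B * ENNReal.ofReal (1 / Real.log (2 + t) ^ 18)

/-- `∑_{i<K} a_i(|ξ|) Y_i(ξ/|ξ|)` -/
noncomputable def PS {n : ℕ} (K : ℕ) (a : ℕ → ℝ → ℂ) (Y : ℕ → E n → ℂ) (ξ : E n) : ℂ :=
  ∑ i ∈ Finset.range K, a i ‖ξ‖ * Y i (‖ξ‖⁻¹ • ξ)

/-- the finite or infinite system `Y 0, Y 1, ...` consists of orthonormal spherical harmonics, `P K` holds for its first `K` elements, and
`g(ξ) = ∑ a_i(|ξ|) Y_i(ξ/|ξ|)` (in `L²`) -/
def Expansion {n : ℕ} (P : ℕ → Prop) (l : ℕ → ℕ) (Y : ℕ → E n → ℂ) (a : ℕ → ℝ → ℂ)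
    (g : E n → ℂ) : Prop :=
  ((∀ K, Harm K l Y ∧ P K) ∧
    Tendsto (fun K : ℕ => ∫⁻ ξ, ‖g ξ - PS K a Y ξ‖ₑ ^ 2) atTop (𝓝 0)) ∨
  ∃ K : ℕ, Harm K l Y ∧ P K ∧ ∀ᵐ ξ, g ξ = PS K a Y ξ

theorem result :
    (∀ (n : ℕ) (k : ℝ), 2 ≤ n → 0 ≤ k → ∃ C : ℝ≥0, ∀ (g : ℕ → E n → ℂ)
      (Ω : Type) [MeasurableSpace Ω] (P : Measure Ω) (ε : ℕ → Ω → ℝ),
      (∀ i, Measurable (g i)) → ∑' i, ∫⁻ ξ, ‖g i ξ‖ₑ ^ 2 ≠ ⊤ → Signs P ε →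
      (∀ i, Centred (g i) ∨ Parabolic k (g i)) →
      (∃ G : Ω → E n → ℂ, Conv P ε g G) ∧ ∀ G : Ω → E n → ℂ, Conv P ε g G →
        (∀ A : Set (E n), ((∃ x0, A ⊆ Metric.closedBall x0 1) ∨ ∀ i, Centred (g i)) →
          ∫⁻ ω, (∫⁻ x in A, (⨆ (R : ℝ) (_ : 0 < R), ‖SR (G ω) R x‖ₑ) ^ 2) ∂P ≤
            C * ∑' i, ∫⁻ ξ, ‖g i ξ‖ₑ ^ 2) ∧
        ∀ᵐ ω ∂P, AEConv (G ω)) ∧
    ∀ n : ℕ, 2 ≤ n → ∃ C : ℝ≥0, ∀ (l : ℕ → ℕ) (Y : ℕ → E n → ℂ) (a : ℕ → ℝ → ℂ) (g : E n → ℂ),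
      (∀ i, Measurable (a i)) →
      (∀ i, ∫⁻ ρ in Set.Ioi (0 : ℝ), ‖a i ρ‖ₑ ^ 2 * ENNReal.ofReal (ρ ^ (n - 1)) ≠ ⊤) →
      Measurable g → ∫⁻ ξ, ‖g ξ‖ₑ ^ 2 ≠ ⊤ →
      (∀ (p : ℝ) (B : ℝ≥0), 2 < p → p ≤ 4 → Expansion (fun K => LamP K p Y B) l Y a g →
          ∫⁻ x, (⨆ (R : ℝ) (_ : 0 < R), ‖SR g R x‖ₑ) ^ 2 ≤
            C * ENNReal.ofReal ((1 / (p - 2)) ^ 16) * (1 + B ^ 2) * ∫⁻ ξ, ‖g ξ‖ₑ ^ 2 ∧
          AEConv g) ∧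
      (∀ B : ℝ≥0, Expansion (fun K => LogGain K Y B) l Y a g →
          ∫⁻ x, (⨆ (R : ℝ) (_ : 0 < R), ‖SR g R x‖ₑ) ^ 2 ≤ C * (1 + B) * ∫⁻ ξ, ‖g ξ‖ₑ ^ 2 ∧
          AEConv g) ∧
      (∀ K : ℕ, 1 ≤ K → Harm K l Y → (∀ᵐ ξ, g ξ = PS K a Y ξ) →
          ∫⁻ x, (⨆ (R : ℝ) (_ : 0 < R), ‖SR g R x‖ₑ) ^ 2 ≤
            C * ENNReal.ofReal (Real.log (2 + K) ^ 16) * ∫⁻ ξ, ‖g ξ‖ₑ ^ 2 ∧
          AEConv g) := by
  refine ⟨?_, ?_⟩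
  · intro n k hn hk
    obtain ⟨C, hC⟩ := Pool.Agent.VRC.q_MIX n k hn hk
    refine ⟨C, fun g Ω _ P ε hg hs hS hc => ?_⟩
    have hS' : Pool.Agent.VRC.Sgn P ε := ⟨hS.prob, hS.meas, hS.ind, hS.pos, hS.neg⟩
    have hP : ∀ (l : ℕ) (g : E n → ℂ), PureDeg l g → Pool.Agent.VRC.Pure n l g := by
      intro l g h ρ hρ
      obtain ⟨p, hp, h1⟩ := h ρ hρ
      exact ⟨p, hp.diff, hp.harm, hp.homog, h1⟩
    have hZ : ∀ g : E n → ℂ, Centred g → ∃ (y : E n) (l : ℕ),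
        Pool.Agent.VRC.Pure n l (fun ξ => g ξ * ex y ξ) := by
      rintro g ⟨y, l, h⟩
      exact ⟨y, l, hP l _ h⟩
    refine ⟨?_, fun G hG => ?_⟩
    · obtain ⟨G, h1, h2⟩ := Pool.Agent.VRC.q_KOL n g Ω P ε hg hs hS'
      exact ⟨G, h1, h2⟩
    · obtain ⟨h1, h2⟩ := hC g Ω P ε G hg hs hS' hG.1 hG.2
      obtain ⟨h3, h4⟩ := h2 (fun i => (hc i).imp (hZ _) id)
      refine ⟨fun A hA => ?_, h4⟩
      rcases hA with ⟨x0, hx⟩ | hA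
      · refine le_trans ?_ (h3 x0)
        exact lintegral_mono fun ω => lintegral_mono_set hx
      · refine le_trans ?_ (h1 fun i => hZ _ (hA i))
        exact lintegral_mono fun ω => setLIntegral_le_lintegral _ _
  · intro n hn
    obtain ⟨C, hC⟩ := Pool.Agent.VRR.q_SYF n hn
    obtain ⟨D, hD⟩ := Pool.Agent.VRR.q_OYF n hn
    obtain ⟨F, hF⟩ := Pool.Agent.VRR.q_LFF n hn
    have hY : ∀ (K : ℕ) (l : ℕ → ℕ) (Y : ℕ → E n → ℂ), Harm K l Y →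
        Pool.Agent.VRR.Sys n K l Y := fun K l Y h =>
      ⟨fun i hi => ⟨(h.sol i hi).diff, (h.sol i hi).harm, (h.sol i hi).homog⟩, h.ort⟩
    refine ⟨C + D + F, fun l Y a g ha hn' hg hs => ?_⟩
    obtain ⟨h1, h2⟩ := hC l Y a g ha hn' hg hs
    have e1 : (C : ℝ≥0∞) ≤ ((C + D + F : ℝ≥0) : ℝ≥0∞) := by
      exact_mod_cast (by rw [add_assoc]; exact le_self_add : C ≤ C + D + F)
    have e2 : (D : ℝ≥0∞) ≤ ((C + D + F : ℝ≥0) : ℝ≥0∞) := by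
      exact_mod_cast ((le_add_self : D ≤ C + D).trans le_self_add : D ≤ C + D + F)
    have e3 : (F : ℝ≥0∞) ≤ ((C + D + F : ℝ≥0) : ℝ≥0∞) := by
      exact_mod_cast (le_add_self : F ≤ C + D + F)
    refine ⟨fun p B hp hp4 hE => ?_, fun B hE => ?_, fun K hK hH hg' => ?_⟩
    · rcases hE with ⟨h, hT⟩ | ⟨K, hH, hL, hT⟩
      · obtain ⟨h3, h4⟩ := h1 p B hp hp4 (fun K => hY K l Y (h K).1) (fun K => (h K).2) hT
        exact ⟨h3.trans (mul_le_mul_left (mul_le_mul_left (mul_le_mul_left e1 _) _) _), h4⟩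
      · obtain ⟨h3, h4⟩ := hF l Y a g ha hn' hg hs p B K hp hp4 (hY K l Y hH) hL hT
        exact ⟨h3.trans (mul_le_mul_left (mul_le_mul_left (mul_le_mul_left e3 _) _) _), h4⟩
    · obtain ⟨h3, h4⟩ := hD B l Y a g ha hn' hg hs (hE.imp
        (fun h => ⟨fun K => hY K l Y (h.1 K).1, fun K => (h.1 K).2, h.2⟩)
        (fun ⟨K, h, h'⟩ => ⟨K, hY K l Y h, h'⟩))
      exact ⟨h3.trans (mul_le_mul_left (mul_le_mul_left e2 _) _), h4⟩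
    · obtain ⟨h3, h4⟩ := h2 K hK (hY K l Y hH) hg'
      exact ⟨h3.trans (mul_le_mul_left (mul_le_mul_left e1 _) _), h4⟩

end Pool.Agent.Results.MP_ee701d_an.RandomSigns
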